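import Mathlib

/-!
# A product of two Carleman operators that is not a Carleman operator
-/

namespace Pool.Agent.Results.MP_fd0bc0_an.CarlemanProduct

open MeasureTheory Filter Topology

/-- Lebesgue measure on the interval `(a, b)`, `-∞ ≤ a < b ≤ ∞`. -/
noncomputable def intervalMeasure (a b : EReal) : Measure ℝ :=
  volume.restrict {x : ℝ | a < (x : EReal) ∧ (x : EReal) < b}

/-- A Carleman kernel: measurable, and `k(x, ·) ∈ L²` for almost every `x`. -/
def IsCarlemanKernel (μ : Measure ℝ) (k : ℝ → ℝ → ℂ) : Prop :=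
  AEStronglyMeasurable (Function.uncurry k) (μ.prod μ) ∧ ∀ᵐ x ∂μ, MemLp (k x) 2 μ

/-- The space `L²(μ)` of complex-valued square-integrable functions (Mathlib's `Lp ℂ 2 μ`). -/
def L2 (μ : Measure ℝ) : Type := Lp ℂ 2 μ

/-- The standard norm and addition of `L²(μ)`. -/
noncomputable instance (μ : Measure ℝ) : NormedAddCommGroup (L2 μ) :=
  inferInstanceAs (NormedAddCommGroup (Lp ℂ 2 μ))

/-- The standard scalar multiplication of `L²(μ)`. -/
noncomputable instance (μ : Measure ℝ) : NormedSpace ℂ (L2 μ) :=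
  inferInstanceAs (NormedSpace ℂ (Lp ℂ 2 μ))

/-- A representative of an element of `L²(μ)`. -/
noncomputable def L2.fn {μ : Measure ℝ} (f : L2 μ) : ℝ → ℂ :=
  ((show Lp ℂ 2 μ from f : Lp ℂ 2 μ) : ℝ → ℂ)

/-- A linear operator in `L²(μ)`, possibly unbounded, with domain the linear subspace `dom`.
Only the values of `act` on `dom` matter. -/
structure Op (μ : Measure ℝ) where
  /-- the domain -/
  dom : Set (L2 μ)
  /-- the action -/
  act : L2 μ → L2 μ
  zero_mem : 0 ∈ dom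
  add_mem : ∀ f ∈ dom, ∀ g ∈ dom, f + g ∈ dom
  smul_mem : ∀ c : ℂ, ∀ f ∈ dom, c • f ∈ dom
  map_add : ∀ f ∈ dom, ∀ g ∈ dom, act (f + g) = act f + act g
  map_smul : ∀ c : ℂ, ∀ f ∈ dom, act (c • f) = c • act f

/-- A Carleman operator: an operator in `L²` represented on its whole domain by a Carleman
kernel. -/
def IsCarleman {μ : Measure ℝ} (T : Op μ) : Prop :=
  ∃ k : ℝ → ℝ → ℂ, IsCarlemanKernel μ k ∧
    ∀ f ∈ T.dom, ∀ᵐ x ∂μ, (T.act f).fn x = ∫ y, k x y * f.fn y ∂μ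

/-- The product `AB`: `D(AB) = {f ∈ D(B) : Bf ∈ D(A)}` and `(AB)f = A(Bf)`. -/
def Op.mul {μ : Measure ℝ} (A B : Op μ) : Op μ where
  dom := {f | f ∈ B.dom ∧ B.act f ∈ A.dom}
  act := fun f => A.act (B.act f)
  zero_mem := by
    have h : B.act 0 = 0 := by
      have := B.map_smul 0 0 B.zero_mem
      simpa using this
    exact ⟨B.zero_mem, by rw [h]; exact A.zero_mem⟩
  add_mem := by
    rintro f ⟨hf, hf'⟩ g ⟨hg, hg'⟩
    exact ⟨B.add_mem f hf g hg, by rw [B.map_add f hf g hg]; exact A.add_mem _ hf' _ hg'⟩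
  smul_mem := by
    rintro c f ⟨hf, hf'⟩
    exact ⟨B.smul_mem c f hf, by rw [B.map_smul c f hf]; exact A.smul_mem c _ hf'⟩
  map_add := by
    rintro f ⟨hf, hf'⟩ g ⟨hg, hg'⟩
    rw [B.map_add f hf g hg, A.map_add _ hf' _ hg']
  map_smul := by
    rintro c f ⟨hf, hf'⟩
    rw [B.map_smul c f hf, A.map_smul c _ hf']

/-- A closed operator: its graph is closed. -/
def Op.Closed {μ : Measure ℝ} (T : Op μ) : Prop :=
  IsClosed {p : L2 μ × L2 μ | p.1 ∈ T.dom ∧ T.act p.1 = p.2}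

open Classical in
/-- The action of a partially defined linear map, extended by `0` (used in the proof). -/
noncomputable def actFun {μ : Measure ℝ} (T : Lp ℂ 2 μ →ₗ.[ℂ] Lp ℂ 2 μ) (f : Lp ℂ 2 μ) :
    Lp ℂ 2 μ :=
  if h : f ∈ T.domain then T ⟨f, h⟩ else 0

lemma actFun_eq {μ : Measure ℝ} (T : Lp ℂ 2 μ →ₗ.[ℂ] Lp ℂ 2 μ) (f : Lp ℂ 2 μ)
    (hf : f ∈ T.domain) : actFun T f = T ⟨f, hf⟩ := dif_pos hf

lemma actFun_add {μ : Measure ℝ} (T : Lp ℂ 2 μ →ₗ.[ℂ] Lp ℂ 2 μ) (f g : Lp ℂ 2 μ)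
    (hf : f ∈ T.domain) (hg : g ∈ T.domain) :
    actFun T (f + g) = actFun T f + actFun T g := by
  rw [actFun_eq T f hf, actFun_eq T g hg, actFun_eq T (f + g) (T.domain.add_mem hf hg)]
  exact T.map_add ⟨f, hf⟩ ⟨g, hg⟩

lemma actFun_smul {μ : Measure ℝ} (T : Lp ℂ 2 μ →ₗ.[ℂ] Lp ℂ 2 μ) (c : ℂ) (f : Lp ℂ 2 μ)
    (hf : f ∈ T.domain) : actFun T (c • f) = c • actFun T f := by
  rw [actFun_eq T f hf, actFun_eq T (c • f) (T.domain.smul_mem c hf)]
  exact T.map_smul c ⟨f, hf⟩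

/-- The operator given by a partially defined linear map (used in the proof). -/
noncomputable def ofPMap {μ : Measure ℝ} (T : Lp ℂ 2 μ →ₗ.[ℂ] Lp ℂ 2 μ) : Op μ where
  dom := (T.domain : Set (Lp ℂ 2 μ))
  act := actFun T
  zero_mem := T.domain.zero_mem
  add_mem := fun f hf g hg => T.domain.add_mem hf hg
  smul_mem := fun c f hf => T.domain.smul_mem c hf
  map_add := fun f hf g hg => actFun_add T f g hf hg
  map_smul := fun c f hf => actFun_smul T c f hf

lemma ofPMap_act {μ : Measure ℝ} (T : Lp ℂ 2 μ →ₗ.[ℂ] Lp ℂ 2 μ) (f : Lp ℂ 2 μ)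
    (hf : f ∈ T.domain) : (ofPMap T).act f = T ⟨f, hf⟩ := actFun_eq T f hf

section general

variable {μ : Measure ℝ}

lemma integrable_kernel {k : ℝ → ℂ} (hk : MemLp k 2 μ) (f : Lp ℂ 2 μ) :
    Integrable (fun y => k y * f y) μ := by
  exact MemLp.integrable_mul hk (Lp.memLp f)

lemma integral_kernel_eq {k : ℝ → ℂ} (hk : MemLp k 2 μ) (f : Lp ℂ 2 μ) :
    ∫ y, k y * f y ∂μ = inner ℂ (hk.star.toLp _) f := by
  rw [L2.inner_def]
  apply integral_congr_ae
  filter_upwards [hk.star.coeFn_toLp] with y hy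
  rw [hy, RCLike.inner_apply]
  simp [mul_comm]

/-- The maximal operator of a Carleman kernel. -/
noncomputable def maxOp (k : ℝ → ℝ → ℂ) (hk : ∀ᵐ x ∂μ, MemLp (k x) 2 μ) :
    Lp ℂ 2 μ →ₗ.[ℂ] Lp ℂ 2 μ where
  domain :=
    { carrier := {f | MemLp (fun x => ∫ y, k x y * f y ∂μ) 2 μ}
      zero_mem' := by
        have h : (fun x => ∫ y, k x y * (0 : Lp ℂ 2 μ) y ∂μ) = fun _ => 0 := by
          ext x
          rw [integral_eq_zero_of_ae]
          filter_upwards [Lp.coeFn_zero ℂ 2 μ] with y hy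
          rw [hy]; simp
        change MemLp (fun x => ∫ y, k x y * (0 : Lp ℂ 2 μ) y ∂μ) 2 μ
        rw [h]
        exact MemLp.zero
      add_mem' := by
        intro f g hf hg
        refine (hf.add hg).ae_eq ?_
        filter_upwards [hk] with x hx
        simp only [Pi.add_apply]
        rw [← integral_add (integrable_kernel hx f) (integrable_kernel hx g)]
        apply integral_congr_ae
        filter_upwards [Lp.coeFn_add f g] with y hy
        rw [hy, Pi.add_apply, mul_add]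
      smul_mem' := by
        intro c f hf
        refine (hf.const_mul c).ae_eq ?_
        filter_upwards [hk] with x hx
        rw [← integral_const_mul]
        apply integral_congr_ae
        filter_upwards [Lp.coeFn_smul c f] with y hy
        rw [hy, Pi.smul_apply, smul_eq_mul]
        ring }
  toFun :=
    { toFun := fun f => MemLp.toLp (fun x => ∫ y, k x y * (f : Lp ℂ 2 μ) y ∂μ) f.2
      map_add' := by
        rintro ⟨f, hf⟩ ⟨g, hg⟩
        apply Lp.ext
        refine (MemLp.coeFn_toLp _).trans ?_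
        refine EventuallyEq.trans ?_ (Lp.coeFn_add _ _).symm
        filter_upwards [hk, MemLp.coeFn_toLp hf, MemLp.coeFn_toLp hg] with x hx hfx hgx
        simp only [Pi.add_apply]
        rw [hfx, hgx, ← integral_add (integrable_kernel hx f) (integrable_kernel hx g)]
        apply integral_congr_ae
        filter_upwards [Lp.coeFn_add f g] with y hy
        simp only [Submodule.coe_add]
        rw [hy, Pi.add_apply, mul_add]
      map_smul' := by
        rintro c ⟨f, hf⟩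
        apply Lp.ext
        refine (MemLp.coeFn_toLp _).trans ?_
        refine EventuallyEq.trans ?_ (Lp.coeFn_smul _ _).symm
        filter_upwards [hk, MemLp.coeFn_toLp hf] with x hx hfx
        simp only [Pi.smul_apply, RingHom.id_apply]
        rw [hfx, smul_eq_mul, ← integral_const_mul]
        apply integral_congr_ae
        filter_upwards [Lp.coeFn_smul c f] with y hy
        simp only [Submodule.coe_smul]
        rw [hy, Pi.smul_apply, smul_eq_mul]
        ring }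

lemma maxOp_apply (k : ℝ → ℝ → ℂ) (hk : ∀ᵐ x ∂μ, MemLp (k x) 2 μ) (f : (maxOp k hk).domain) :
    ∀ᵐ x ∂μ, (maxOp k hk f) x = ∫ y, k x y * (f : Lp ℂ 2 μ) y ∂μ :=
  MemLp.coeFn_toLp f.2

lemma maxOp_isCarleman (k : ℝ → ℝ → ℂ) (hk : IsCarlemanKernel μ k) :
    IsCarleman (ofPMap (maxOp k hk.2)) := by
  refine ⟨k, hk, fun f hf => ?_⟩
  rw [ofPMap_act _ f hf]
  exact maxOp_apply k hk.2 ⟨f, hf⟩

lemma ofPMap_closed (T : Lp ℂ 2 μ →ₗ.[ℂ] Lp ℂ 2 μ) 
    (h : IsClosed (T.graph : Set (Lp ℂ 2 μ × Lp ℂ 2 μ))) : (ofPMap T).Closed := by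
  have hset : {p : Lp ℂ 2 μ × Lp ℂ 2 μ | p.1 ∈ T.domain ∧ actFun T p.1 = p.2} =
      (T.graph : Set (Lp ℂ 2 μ × Lp ℂ 2 μ)) := by
    ext p
    rw [SetLike.mem_coe, LinearPMap.mem_graph_iff]
    constructor
    · rintro ⟨h1, h2⟩
      rw [actFun_eq T p.1 h1] at h2
      exact ⟨⟨p.1, h1⟩, rfl, h2⟩
    · rintro ⟨y, h1, h2⟩
      have h3 : p.1 ∈ T.domain := by rw [← h1]; exact y.2
      refine ⟨h3, ?_⟩
      rw [actFun_eq T p.1 h3, ← h2]
      congr 1
      exact Subtype.ext h1.symm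
  rw [← hset] at h
  exact h

/-- Maximal Carleman operators are closed. -/
lemma maxOp_isClosed (k : ℝ → ℝ → ℂ) (hk : ∀ᵐ x ∂μ, MemLp (k x) 2 μ) :
    (ofPMap (maxOp k hk)).Closed := by
  apply ofPMap_closed
  rw [← isSeqClosed_iff_isClosed]
  intro u p hu hup
  have hu' : ∀ n, ∃ z : (maxOp k hk).domain, (z : Lp ℂ 2 μ) = (u n).1 ∧
      maxOp k hk z = (u n).2 := fun n => (LinearPMap.mem_graph_iff _).1 (hu n)
  choose z hz1 hz2 using hu'
  have h1 : Tendsto (fun n => (u n).1) atTop (𝓝 p.1) := (continuous_fst.tendsto p).comp hup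
  have h2 : Tendsto (fun n => (u n).2) atTop (𝓝 p.2) := (continuous_snd.tendsto p).comp hup
  obtain ⟨ns, hns, hae⟩ := (tendstoInMeasure_of_tendsto_Lp h2).exists_seq_tendsto_ae
  have hall : ∀ᵐ x ∂μ, ∀ n, (u n).2 x = ∫ y, k x y * (u n).1 y ∂μ := by
    rw [ae_all_iff]
    intro n
    have h3 := maxOp_apply k hk (z n)
    rw [hz2, hz1] at h3
    exact h3
  have hlim : ∀ᵐ x ∂μ, p.2 x = ∫ y, k x y * p.1 y ∂μ := by
    filter_upwards [hk, hae, hall] with x hx hx1 hx2
    have h3 : Tendsto (fun n => ∫ y, k x y * (u (ns n)).1 y ∂μ) atTop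
        (𝓝 (∫ y, k x y * p.1 y ∂μ)) := by
      rw [integral_kernel_eq hx p.1]
      simp_rw [integral_kernel_eq hx]
      exact tendsto_const_nhds.inner (h1.comp hns.tendsto_atTop)
    have h4 : Tendsto (fun n => ∫ y, k x y * (u (ns n)).1 y ∂μ) atTop (𝓝 (p.2 x)) := by
      have h5 : (fun n => ∫ y, k x y * (u (ns n)).1 y ∂μ) = fun n => (u (ns n)).2 x := by
        ext n; exact (hx2 (ns n)).symm
      rw [h5]; exact hx1
    exact tendsto_nhds_unique h4 h3
  have hp1 : p.1 ∈ (maxOp k hk).domain := by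
    change MemLp (fun x => ∫ y, k x y * p.1 y ∂μ) 2 μ
    exact (Lp.memLp p.2).ae_eq hlim
  refine (LinearPMap.mem_graph_iff _).2 ⟨⟨p.1, hp1⟩, rfl, ?_⟩
  apply Lp.ext
  filter_upwards [maxOp_apply k hk ⟨p.1, hp1⟩, hlim] with x hx1 hx2
  rw [hx1, hx2]

end general

section example0

/-- Lebesgue measure on `(0, ∞)`. -/
noncomputable abbrev m0 : Measure ℝ := volume.restrict (Set.Ioi 0)

lemma interval_eq : intervalMeasure 0 ⊤ = m0 := by
  unfold intervalMeasure
  congr 1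
  ext x
  simp only [Set.mem_setOf_eq, Set.mem_Ioi]
  constructor
  · rintro ⟨h, _⟩
    exact_mod_cast h
  · intro h
    exact ⟨by exact_mod_cast h, EReal.coe_lt_top x⟩

/-- The cells `(m-1, m]`. -/
def cell (m : ℕ) : Set ℝ := {y | ⌈y⌉₊ = m}

lemma measurableSet_cell (m : ℕ) : MeasurableSet (cell m) :=
  Nat.measurable_ceil (measurableSet_singleton m)

lemma cell_inter (m : ℕ) (hm : 1 ≤ m) : cell m ∩ Set.Ioi 0 = Set.Ioc ((m : ℝ) - 1) m := by
  ext y
  simp only [cell, Set.mem_inter_iff, Set.mem_setOf_eq, Set.mem_Ioi, Set.mem_Ioc]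
  constructor
  · rintro ⟨h1, h2⟩
    subst h1
    constructor
    · have := Nat.ceil_lt_add_one h2.le
      linarith
    · exact Nat.le_ceil y
  · rintro ⟨h1, h2⟩
    have hm' : (1 : ℝ) ≤ m := by exact_mod_cast hm
    refine ⟨?_, by linarith⟩
    apply le_antisymm (Nat.ceil_le.2 h2)
    by_contra h3
    push Not at h3
    have h4 : ⌈y⌉₊ ≤ m - 1 := by omega
    have h5 := Nat.ceil_le.1 h4
    rw [Nat.cast_sub hm] at h5
    push_cast at h5
    linarith

lemma m0_cell (m : ℕ) (hm : 1 ≤ m) : m0 (cell m) = 1 := by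
  rw [Measure.restrict_apply (measurableSet_cell m), cell_inter m hm, Real.volume_Ioc]
  simp

lemma m0_cell_lt (m : ℕ) : m0 (cell m) ≠ ⊤ := by
  rcases Nat.eq_zero_or_pos m with rfl | hm
  · rw [Measure.restrict_apply (measurableSet_cell 0)]
    have : cell 0 ∩ Set.Ioi 0 = ∅ := by
      ext y
      simp only [cell, Set.mem_inter_iff, Set.mem_setOf_eq, Set.mem_Ioi, Nat.ceil_eq_zero,
        Set.mem_empty_iff_false, iff_false, not_and, not_lt]
      exact fun h => h
    rw [this]; simp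
  · rw [m0_cell m hm]; exact ENNReal.one_ne_top

/-- The kernel of `B`. -/
noncomputable def kB (x y : ℝ) : ℂ := if ⌈x⌉₊ = ⌈y⌉₊ then (⌈x⌉₊ : ℂ) else 0

lemma kB_eq (x : ℝ) : kB x = (cell ⌈x⌉₊).indicator (fun _ => (⌈x⌉₊ : ℂ)) := by
  ext y
  by_cases h : ⌈x⌉₊ = ⌈y⌉₊
  · rw [Set.indicator_of_mem (show y ∈ cell ⌈x⌉₊ from h.symm)]
    simp only [kB, h, if_true]
  · rw [Set.indicator_of_notMem (fun hy : y ∈ cell ⌈x⌉₊ => h hy.symm)]
    simp only [kB, h, if_false]

lemma kB_memLp (x : ℝ) : MemLp (kB x) 2 m0 := by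
  rw [kB_eq]
  exact memLp_indicator_const 2 (measurableSet_cell _) _ (Or.inr (m0_cell_lt _))

lemma kB_kernel : IsCarlemanKernel m0 kB := by
  refine ⟨?_, Eventually.of_forall kB_memLp⟩
  apply Measurable.aestronglyMeasurable
  unfold Function.uncurry kB
  have h1 : Measurable fun q : ℝ × ℝ => ⌈q.1⌉₊ := Nat.measurable_ceil.comp measurable_fst
  have h2 : Measurable fun q : ℝ × ℝ => ⌈q.2⌉₊ := Nat.measurable_ceil.comp measurable_snd
  apply Measurable.ite (measurableSet_eq_fun h1 h2) _ measurable_const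
  exact (measurable_from_nat (f := fun n : ℕ => (n : ℂ))).comp h1

/-- The operator `B`. -/
noncomputable def opB : Lp ℂ 2 m0 →ₗ.[ℂ] Lp ℂ 2 m0 := maxOp kB kB_kernel.2

lemma memLp_ceil (c : ℕ → ℂ) (N : ℕ) (hc : ∀ m, N < m → c m = 0) :
    MemLp (fun x : ℝ => c ⌈x⌉₊) 2 m0 := by
  have h : (fun x : ℝ => c ⌈x⌉₊) =
      fun x => ∑ m ∈ Finset.range (N + 1), (cell m).indicator (fun _ => c m) x := by
    ext x
    by_cases hx : ⌈x⌉₊ ≤ N
    · rw [Finset.sum_eq_single ⌈x⌉₊]
      · rw [Set.indicator_of_mem (show x ∈ cell ⌈x⌉₊ from rfl)]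
      · intro m _ hm
        rw [Set.indicator_of_notMem]
        exact fun hxm : x ∈ cell m => hm hxm.symm
      · intro h
        exact absurd (Finset.mem_range.2 (by omega)) h
    · rw [hc _ (by omega), Finset.sum_eq_zero]
      intro m hm
      rw [Set.indicator_of_notMem]
      intro hxm
      have h1 : ⌈x⌉₊ = m := hxm
      have := Finset.mem_range.1 hm
      omega
  rw [h]
  apply memLp_finset_sum
  intro m _
  exact memLp_indicator_const 2 (measurableSet_cell _) _ (Or.inr (m0_cell_lt _))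

/-- Functions vanishing outside `(0, N]` are in the domain of `B`. -/
lemma mem_domain (f : Lp ℂ 2 m0) (N : ℕ) (hf : ∀ᵐ y ∂m0, (N : ℝ) < y → f y = 0) :
    f ∈ opB.domain := by
  change MemLp (fun x => ∫ y, kB x y * f y ∂m0) 2 m0
  have h := memLp_ceil (fun m => ∫ y, (if m = ⌈y⌉₊ then (m : ℂ) else 0) * f y ∂m0) N
    (by
      intro m hm
      apply integral_eq_zero_of_ae
      filter_upwards [hf] with y hy
      by_cases h : m = ⌈y⌉₊
      · have h2 : (N : ℝ) < y := by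
          subst h
          exact Nat.lt_ceil.1 hm
        simp [hy h2]
      · simp [h])
  exact h

/-- `B` is densely defined. -/
lemma opB_dense : Dense (opB.domain : Set (Lp ℂ 2 m0)) := by
  rw [Submodule.dense_iff_topologicalClosure_eq_top, Submodule.topologicalClosure_eq_top_iff,
    Submodule.eq_bot_iff]
  intro g hg
  rw [Submodule.mem_orthogonal] at hg
  have key : ∀ N : ℕ, ∀ᵐ y ∂m0, y ≤ (N : ℝ) → g y = 0 := by
    intro N
    have hmem : MemLp ((Set.Iic (N : ℝ)).indicator g) 2 m0 :=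
      (Lp.memLp g).indicator measurableSet_Iic
    set f : Lp ℂ 2 m0 := hmem.toLp _ with hf
    have hfae : f =ᵐ[m0] (Set.Iic (N : ℝ)).indicator g := hmem.coeFn_toLp
    have hfd : f ∈ opB.domain := by
      apply mem_domain f N
      filter_upwards [hfae] with y hy hyN
      rw [hy, Set.indicator_of_notMem]
      simpa using hyN
    have h0 := hg f hfd
    have hff : inner ℂ f f = (0 : ℂ) := by
      rw [← h0, L2.inner_def, L2.inner_def]
      apply integral_congr_ae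
      filter_upwards [hfae] with y hy
      rw [hy]
      by_cases hyN : y ∈ Set.Iic (N : ℝ)
      · rw [Set.indicator_of_mem hyN]
      · rw [Set.indicator_of_notMem hyN]; simp
    have hf0 : f = 0 := inner_self_eq_zero.1 hff
    have h1 : (Set.Iic (N : ℝ)).indicator g =ᵐ[m0] 0 := by
      refine hfae.symm.trans ?_
      rw [hf0]
      exact Lp.coeFn_zero ℂ 2 m0
    filter_upwards [h1] with y hy hyN
    rw [Set.indicator_of_mem (show y ∈ Set.Iic (N : ℝ) from hyN)] at hy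
    exact hy
  apply Lp.ext
  have hall := ae_all_iff.2 key
  filter_upwards [hall, Lp.coeFn_zero ℂ 2 m0] with y hy hy0
  obtain ⟨N, hN⟩ := exists_nat_ge y
  rw [hy N hN, hy0]; rfl

/-- The function `1/⌈x⌉`. -/
noncomputable def hfun (x : ℝ) : ℂ := 1 / (⌈x⌉₊ : ℂ)

lemma measurable_hfun : Measurable hfun :=
  (measurable_from_nat (f := fun n : ℕ => (1 / (n : ℂ)))).comp Nat.measurable_ceil

lemma hfun_memLp : MemLp hfun 2 m0 := by
  have h1 : MemLp (fun x : ℝ => (2 : ℝ) * (1 + ‖x‖) ^ (-1 : ℝ)) 2 m0 := by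
    apply MemLp.restrict
    rw [memLp_two_iff_integrable_sq_norm]
    · have h2 : (fun x : ℝ => ‖(2 : ℝ) * (1 + ‖x‖) ^ (-1 : ℝ)‖ ^ 2) =
          fun x : ℝ => 4 * (1 + ‖x‖) ^ (-2 : ℝ) := by
        ext x
        have hpos : (0 : ℝ) < 1 + ‖x‖ := by positivity
        rw [Real.norm_of_nonneg (by positivity), mul_pow, ← Real.rpow_natCast
          ((1 + ‖x‖) ^ (-1 : ℝ)) 2, ← Real.rpow_mul hpos.le]
        norm_num
      rw [h2]
      apply Integrable.const_mul
      exact integrable_one_add_norm (by simp)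
    · apply Measurable.aestronglyMeasurable
      fun_prop
  apply MemLp.mono h1 measurable_hfun.aestronglyMeasurable
  rw [ae_restrict_iff' measurableSet_Ioi]
  apply Eventually.of_forall
  intro x hx
  have hx0 : (0 : ℝ) < x := hx
  have hc1 : (1 : ℝ) ≤ (⌈x⌉₊ : ℝ) := by
    have : 1 ≤ ⌈x⌉₊ := Nat.one_le_ceil_iff.2 hx0
    exact_mod_cast this
  have hc2 := Nat.le_ceil x
  rw [hfun, norm_div, norm_one, Complex.norm_natCast, Real.norm_of_nonneg (by positivity),
    Real.rpow_neg_one, Real.norm_of_nonneg hx0.le, ← div_eq_mul_inv,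
    div_le_div_iff₀ (by positivity) (by positivity)]
  linarith

/-- `1/⌈x⌉` as an element of `L²(0,∞)`. -/
noncomputable def h0 : Lp ℂ 2 m0 := hfun_memLp.toLp _

/-- The bounded rank one operator `A f = ⟨f, h⟩ h`. -/
noncomputable def opA : Lp ℂ 2 m0 →ₗ.[ℂ] Lp ℂ 2 m0 :=
  LinearMap.toPMap
    ({ toFun := fun f => (inner ℂ h0 f : ℂ) • h0
       map_add' := fun f g => by rw [inner_add_right, add_smul]
       map_smul' := fun c f => by rw [inner_smul_right, mul_smul, RingHom.id_apply] } :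
      Lp ℂ 2 m0 →ₗ[ℂ] Lp ℂ 2 m0) ⊤

lemma opA_apply (f : opA.domain) : opA f = (inner ℂ h0 (f : Lp ℂ 2 m0) : ℂ) • h0 := rfl

lemma hfun_real (x : ℝ) : (starRingEnd ℂ) (hfun x) = hfun x := by
  unfold hfun
  simp

lemma inner_h0 (f : Lp ℂ 2 m0) : (inner ℂ h0 f : ℂ) = ∫ y, hfun y * f y ∂m0 := by
  rw [L2.inner_def]
  apply integral_congr_ae
  filter_upwards [hfun_memLp.coeFn_toLp] with y hy
  rw [show (h0 : Lp ℂ 2 m0) y = hfun y from hy, RCLike.inner_apply, hfun_real, mul_comm]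

lemma opA_kernel (f : Lp ℂ 2 m0) : ∀ᵐ x ∂m0, (((inner ℂ h0 f : ℂ) • h0 : Lp ℂ 2 m0)) x =
    ∫ y, hfun x * hfun y * f y ∂m0 := by
  filter_upwards [Lp.coeFn_smul (inner ℂ h0 f : ℂ) h0,
    hfun_memLp.coeFn_toLp] with x hx hx2
  rw [hx, Pi.smul_apply, show (h0 : Lp ℂ 2 m0) x = hfun x from hx2, inner_h0, smul_eq_mul,
    mul_comm, ← integral_const_mul]
  apply integral_congr_ae
  apply Eventually.of_forall
  intro y
  ring

lemma opA_isCarleman : IsCarleman (ofPMap opA) := by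
  refine ⟨fun x y => hfun x * hfun y, ⟨?_, ?_⟩, ?_⟩
  · apply Measurable.aestronglyMeasurable
    exact (measurable_hfun.comp measurable_fst).mul (measurable_hfun.comp measurable_snd)
  · apply Eventually.of_forall
    intro x
    exact hfun_memLp.const_mul _
  · intro f hf
    rw [ofPMap_act _ f hf, opA_apply]
    exact opA_kernel f

lemma opA_bounded (f : opA.domain) : ‖opA f‖ ≤ ‖h0‖ ^ 2 * ‖(f : Lp ℂ 2 m0)‖ := by
  rw [opA_apply, norm_smul]
  have := norm_inner_le_norm (𝕜 := ℂ) h0 (f : Lp ℂ 2 m0)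
  nlinarith [norm_nonneg h0, norm_nonneg (f : Lp ℂ 2 m0)]

lemma m0_Ioc_ne_top (N : ℕ) : m0 (Set.Ioc (0 : ℝ) N) ≠ ⊤ := by
  apply ne_top_of_le_ne_top _ (Measure.restrict_apply_le _ _)
  rw [Real.volume_Ioc]
  exact ENNReal.ofReal_ne_top

/-- The test functions `f_N = (1/N) 1_{(0,N]}`. -/
noncomputable def test (N : ℕ) : Lp ℂ 2 m0 :=
  indicatorConstLp 2 measurableSet_Ioc (m0_Ioc_ne_top N) (1 / (N : ℂ))

lemma test_ae (N : ℕ) : (test N : ℝ → ℂ) =ᵐ[m0]
    (Set.Ioc (0 : ℝ) N).indicator (fun _ => 1 / (N : ℂ)) :=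
  indicatorConstLp_coeFn

lemma test_mem (N : ℕ) : test N ∈ opB.domain := by
  apply mem_domain _ N
  filter_upwards [test_ae N] with y hy hyN
  rw [hy, Set.indicator_of_notMem]
  intro h
  linarith [h.2]

lemma test_norm (N : ℕ) (hN : 1 ≤ N) : ‖test N‖ = (1 / (N : ℝ)) * (N : ℝ) ^ (1 / 2 : ℝ) := by
  unfold test
  rw [norm_indicatorConstLp (by norm_num) (by norm_num)]
  congr 1
  · simp
  · have : m0.real (Set.Ioc (0 : ℝ) N) = N := by
      rw [Measure.real, Measure.restrict_apply measurableSet_Ioc,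
        Set.inter_eq_left.2 Set.Ioc_subset_Ioi_self, Real.volume_Ioc]
      simp
    rw [this]
    norm_num

lemma opB_test (N : ℕ) (hN : 1 ≤ N) : ∀ᵐ x ∂m0, (opB ⟨test N, test_mem N⟩) x =
    (Set.Ioc (0 : ℝ) N).indicator (fun x => (⌈x⌉₊ : ℂ) / N) x := by
  have h1 := maxOp_apply kB kB_kernel.2 ⟨test N, test_mem N⟩
  have hpos : ∀ᵐ x ∂m0, (0 : ℝ) < x := by
    rw [ae_restrict_iff' measurableSet_Ioi]
    exact Eventually.of_forall fun x hx => hx
  filter_upwards [h1, hpos] with x hx hx0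
  rw [show (opB ⟨test N, test_mem N⟩) x = _ from hx]
  have hc1 : 1 ≤ ⌈x⌉₊ := Nat.one_le_ceil_iff.2 hx0
  by_cases hxN : ⌈x⌉₊ ≤ N
  · rw [Set.indicator_of_mem (show x ∈ Set.Ioc (0 : ℝ) N from ⟨hx0, Nat.ceil_le.1 hxN⟩)]
    have h2 : ∫ y, kB x y * (test N) y ∂m0 =
        ∫ y, (cell ⌈x⌉₊).indicator (fun _ => (⌈x⌉₊ : ℂ) / N) y ∂m0 := by
      apply integral_congr_ae
      filter_upwards [test_ae N, hpos] with y hy hy0
      rw [hy, kB_eq]
      by_cases hyc : y ∈ cell ⌈x⌉₊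
      · have hyN : y ∈ Set.Ioc (0 : ℝ) N := by
          refine ⟨hy0, ?_⟩
          have h3 : ⌈y⌉₊ = ⌈x⌉₊ := hyc
          apply Nat.ceil_le.1
          rw [h3]; exact hxN
        rw [Set.indicator_of_mem hyc, Set.indicator_of_mem hyN, Set.indicator_of_mem hyc]
        ring
      · rw [Set.indicator_of_notMem hyc, Set.indicator_of_notMem hyc, zero_mul]
    rw [h2, integral_indicator_const _ (measurableSet_cell _), Measure.real, m0_cell _ hc1]
    simp
  · rw [Set.indicator_of_notMem (fun h : x ∈ Set.Ioc (0 : ℝ) N => hxN (Nat.ceil_le.2 h.2))]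
    apply integral_eq_zero_of_ae
    filter_upwards [test_ae N] with y hy
    rw [hy, kB_eq]
    by_cases hyc : y ∈ cell ⌈x⌉₊
    · have hyN : y ∉ Set.Ioc (0 : ℝ) N := by
        intro h
        have h3 : ⌈y⌉₊ = ⌈x⌉₊ := hyc
        have h4 := Nat.ceil_le.2 h.2
        omega
      rw [Set.indicator_of_notMem hyN]
      simp
    · rw [Set.indicator_of_notMem hyc]
      simp

lemma inner_test (N : ℕ) (hN : 1 ≤ N) :
    (inner ℂ h0 (opB ⟨test N, test_mem N⟩) : ℂ) = 1 := by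
  rw [inner_h0]
  have h1 : ∫ y, hfun y * (opB ⟨test N, test_mem N⟩) y ∂m0 =
      ∫ y, (Set.Ioc (0 : ℝ) N).indicator (fun _ => 1 / (N : ℂ)) y ∂m0 := by
    apply integral_congr_ae
    filter_upwards [opB_test N hN] with y hy
    rw [hy]
    by_cases hyN : y ∈ Set.Ioc (0 : ℝ) N
    · rw [Set.indicator_of_mem hyN, Set.indicator_of_mem hyN, hfun]
      have : (⌈y⌉₊ : ℂ) ≠ 0 := by
        have : 1 ≤ ⌈y⌉₊ := Nat.one_le_ceil_iff.2 hyN.1
        exact_mod_cast (show ⌈y⌉₊ ≠ 0 by omega)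
      field_simp
    · rw [Set.indicator_of_notMem hyN, Set.indicator_of_notMem hyN, mul_zero]
  rw [h1, integral_indicator_const _ measurableSet_Ioc, Measure.real,
    Measure.restrict_apply measurableSet_Ioc,
    Set.inter_eq_left.2 Set.Ioc_subset_Ioi_self, Real.volume_Ioc]
  have hN0 : (N : ℂ) ≠ 0 := by exact_mod_cast (show N ≠ 0 by omega)
  simp [hN0]

lemma prod_not_carleman : ¬ IsCarleman ((ofPMap opA).mul (ofPMap opB)) := by
  rintro ⟨k, ⟨_, hk⟩, hrep⟩
  have hdom : ∀ N, test N ∈ ((ofPMap opA).mul (ofPMap opB)).dom :=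
    fun N => ⟨test_mem N, trivial⟩
  have hval : ∀ N, 1 ≤ N → ((ofPMap opA).mul (ofPMap opB)).act (test N) = h0 := by
    intro N hN
    change (ofPMap opA).act ((ofPMap opB).act (test N)) = h0
    rw [ofPMap_act opB _ (test_mem N), ofPMap_act opA _ trivial, opA_apply]
    change (inner ℂ h0 (opB ⟨test N, test_mem N⟩) : ℂ) • h0 = h0
    rw [inner_test N hN, one_smul]
  have hall : ∀ᵐ x ∂m0, ∀ N : ℕ, 1 ≤ N → h0 x = ∫ y, k x y * (test N) y ∂m0 := by
    rw [ae_all_iff]
    intro N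
    by_cases hN : 1 ≤ N
    · have h1 := hrep (test N) (hdom N)
      rw [hval N hN] at h1
      filter_upwards [h1] with x hx _
      exact hx
    · exact Eventually.of_forall fun x h => absurd h hN
  have hlimtest : Tendsto (fun N : ℕ => test (N + 1)) atTop (𝓝 0) := by
    rw [tendsto_zero_iff_norm_tendsto_zero]
    have h1 : (fun N : ℕ => ‖test (N + 1)‖) =
        fun N : ℕ => ((N + 1 : ℕ) : ℝ) ^ (-(1 / 2) : ℝ) := by
      ext N
      rw [test_norm (N + 1) (by omega)]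
      have hpos : (0 : ℝ) < ((N + 1 : ℕ) : ℝ) := by positivity
      rw [one_div, ← Real.rpow_neg_one, ← Real.rpow_add hpos]
      norm_num
    rw [h1]
    exact (tendsto_rpow_neg_atTop (by norm_num : (0 : ℝ) < 1 / 2)).comp
      (tendsto_natCast_atTop_atTop.comp (tendsto_add_atTop_nat 1))
  have hzero : ∀ᵐ x ∂m0, h0 x = 0 := by
    filter_upwards [hk, hall] with x hx hx2
    have h1 : Tendsto (fun N : ℕ => ∫ y, k x y * (test (N + 1)) y ∂m0) atTop (𝓝 0) := by
      simp_rw [integral_kernel_eq hx]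
      have h2 := (tendsto_const_nhds (x := hx.star.toLp _)).inner (𝕜 := ℂ) hlimtest
      rwa [inner_zero_right] at h2
    have h2 : (fun N : ℕ => ∫ y, k x y * (test (N + 1)) y ∂m0) = fun _ => h0 x := by
      ext N; exact (hx2 (N + 1) (by omega)).symm
    rw [h2] at h1
    exact tendsto_nhds_unique tendsto_const_nhds h1
  have hfalse : ∀ᵐ x ∂m0, False := by
    have hpos : ∀ᵐ x ∂m0, (0 : ℝ) < x := by
      rw [ae_restrict_iff' measurableSet_Ioi]
      exact Eventually.of_forall fun x hx => hx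
    filter_upwards [hzero, hfun_memLp.coeFn_toLp, hpos] with x hx1 hx2 hx3
    rw [show (h0 : Lp ℂ 2 m0) x = hfun x from hx2] at hx1
    have : 1 ≤ ⌈x⌉₊ := Nat.one_le_ceil_iff.2 hx3
    have h4 : (⌈x⌉₊ : ℂ) ≠ 0 := by exact_mod_cast (show ⌈x⌉₊ ≠ 0 by omega)
    unfold hfun at hx1
    exact h4 (by simpa using hx1)
  have h5 : m0 = 0 := by
    rw [← ae_eq_bot]
    exact eventually_false_iff_eq_bot.1 hfalse
  have h6 := m0_cell 1 le_rfl
  rw [h5] at h6
  simp at h6

end example0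

/-- **Main result.** There are an interval `(a,b)` (namely `(0,∞)`) and Carleman operators `A`,
`B` on `L²(a,b)`, with `A` bounded and everywhere defined and `B` closed and densely defined,
such that the product `AB` is not a Carleman operator: no Carleman kernel represents `AB` on
all of `D(AB)`. -/
theorem result : ∃ (a b : EReal) (A B : Op (intervalMeasure a b)), a < b ∧
    IsCarleman A ∧ IsCarleman B ∧
    ((∀ f, f ∈ A.dom) ∧ ∃ C : ℝ, ∀ f, ‖A.act f‖ ≤ C * ‖f‖) ∧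
    (Dense B.dom ∧ B.Closed) ∧ ¬ IsCarleman (A.mul B) := by
  refine ⟨0, ⊤, ?_⟩
  rw [interval_eq]
  refine ⟨ofPMap opA, ofPMap opB, EReal.coe_lt_top 0, opA_isCarleman,
    maxOp_isCarleman kB kB_kernel, ⟨fun f => trivial, ‖h0‖ ^ 2, fun f => ?_⟩,
    ⟨opB_dense, maxOp_isClosed kB kB_kernel.2⟩, prod_not_carleman⟩
  rw [ofPMap_act opA f trivial]
  exact opA_bounded ⟨f, trivial⟩

end Pool.Agent.Results.MP_fd0bc0_an.CarlemanProduct
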